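import Pool.Agent.VTP.StmtsG

set_option autoImplicit false

namespace Pool.Agent.VTP.H28

open Finset Pool.Agent.ZOL

/-- transport of a homomorphism along an equality of indices -/
def tr {κ : Type} {B : κ → Type} [∀ t, AddCommGroup (B t)] {X : Type} [AddCommGroup X] {a b : κ}
    (e : a = b) (g : X →+ B a) : X →+ B b := e ▸ g

/-- transport of groups -/
def cst (M : ℕ → Type) [∀ k, AddCommGroup (M k)] {a b : ℕ} (h : a = b) : M a ≃+ M b := by
  subst h
  exact AddEquiv.refl _

theorem emb {ι κ : Type} (A : ι → Type) (B : κ → Type) [∀ s, AddCommGroup (A s)]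
    [∀ t, AddCommGroup (B t)] (φ : ι → κ) (hφ : Function.Injective φ)
    (E : ∀ s, A s ≃+ B (φ s)) :
    ∃ (i : (∀ s, A s) →+ (∀ t, B t)) (r : (∀ t, B t) →+ (∀ s, A s)), ∀ x, r (i x) = x := by
  classical
  let j : ∀ t, (∀ s, A s) →+ B t := fun t =>
    if h : ∃ s, φ s = t then
      tr (B := B) h.choose_spec
        ((E h.choose).toAddMonoidHom.comp (Pi.evalAddMonoidHom A h.choose))
    else 0
  have hj : ∀ s f, j (φ s) f = E s (f s) := by
    intro s f
    have hs : ∃ s', φ s' = φ s := ⟨s, rfl⟩
    have gen : ∀ (s' : ι) (e : φ s' = φ s),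
        (tr (B := B) e ((E s').toAddMonoidHom.comp (Pi.evalAddMonoidHom A s'))) f =
          E s (f s) := by
      intro s' e
      obtain rfl := hφ e
      rfl
    have h1 : j (φ s) = tr (B := B) hs.choose_spec
        ((E hs.choose).toAddMonoidHom.comp (Pi.evalAddMonoidHom A hs.choose)) := dif_pos hs
    rw [h1]
    exact gen _ _
  refine ⟨AddMonoidHom.pi j, AddMonoidHom.pi (fun s =>
    (E s).symm.toAddMonoidHom.comp (Pi.evalAddMonoidHom B (φ s))), fun x => ?_⟩
  funext s
  show (E s).symm (j (φ s) x) = x s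
  rw [hj, AddEquiv.symm_apply_apply]

theorem fin_card (T : Type) : ∃ φ : Fin (Nat.card T) → T, Function.Injective φ := by
  rcases finite_or_infinite T with h | h
  · exact ⟨(Finite.equivFin T).symm, (Finite.equivFin T).symm.injective⟩
  · have h0 : Nat.card T = 0 := Nat.card_eq_zero_of_infinite
    rw [h0]
    exact ⟨fun a => a.elim0, fun a => a.elim0⟩

/-- row COR -/
theorem cor : CorStmt := by
  classical
  intro M _ Gd _ hE
  refine ⟨?_, ?_⟩
  · intro d e hde
    obtain ⟨Ed⟩ := hE d
    obtain ⟨Ee⟩ := hE e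
    let φ : MS d → MS e := fun s => ⟨(e - d) ::ₘ s.1, by
      refine ⟨fun x hx => ?_, ?_⟩
      · rcases Multiset.mem_cons.1 hx with h | h
        · omega
        · exact s.2.1 x h
      · rw [Multiset.sum_cons]
        have := s.2.2
        omega⟩
    have hφ : Function.Injective φ := by
      intro s t h
      have := congrArg Subtype.val h
      exact Subtype.ext ((Multiset.cons_inj_right _).1 this)
    obtain ⟨i, r, hir⟩ := emb (fun s : MS d => M (d - s.1.sum)) (fun t : MS e => M (e - t.1.sum))
      φ hφ (fun s => cst M (by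
        show d - s.1.sum = e - ((e - d) ::ₘ s.1).sum
        rw [Multiset.sum_cons]
        have := s.2.2
        omega))
    refine ⟨Ee.symm.toAddMonoidHom.comp (i.comp Ed.toAddMonoidHom),
      Ed.symm.toAddMonoidHom.comp (r.comp Ee.toAddMonoidHom), fun x => ?_⟩
    show Ed.symm (r (Ee (Ee.symm (i (Ed x))))) = x
    rw [AddEquiv.apply_symm_apply, hir, AddEquiv.symm_apply_apply]
  · intro p hp
    by_cases hall : ∀ (d : ℕ) (x : Gd d), (p : ℤ) • x = 0 → x = 0
    · exact Or.inl hall
    · right
      push_neg at hall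
      obtain ⟨d₀, x, hpx, hx⟩ := hall
      obtain ⟨E₀⟩ := hE d₀
      have hf : (p : ℤ) • E₀ x = 0 := by rw [← map_zsmul, hpx, map_zero]
      have hf0 : E₀ x ≠ 0 := fun h => hx (by
        have := congrArg E₀.symm h
        rwa [AddEquiv.symm_apply_apply, map_zero] at this)
      obtain ⟨s, hs⟩ := Function.ne_iff.1 hf0
      have hs' : (p : ℤ) • (E₀ x s) = 0 := congrFun hf s
      have hs0 : E₀ x s ≠ 0 := hs
      obtain ⟨e, y, hpy, hy⟩ : ∃ (e : ℕ) (y : M e), (p : ℤ) • y = 0 ∧ y ≠ 0 :=
        ⟨_, E₀ x s, hs', hs0⟩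
      refine ⟨e, fun d hd => ?_⟩
      obtain ⟨Ed⟩ := hE d
      have hfc : ∃ φ : Fin (np (d - e)) →
          {s : Multiset ℕ // (∀ x ∈ s, 2 ≤ x) ∧ s.sum = d - e}, Function.Injective φ :=
        fin_card _
      obtain ⟨φ, hφ⟩ := hfc
      let ψ : Fin (np (d - e)) → MS d := fun a => ⟨(φ a).1, (φ a).2.1, by
        have := (φ a).2.2
        omega⟩
      have hψ : Function.Injective ψ := by
        intro a b h
        have := congrArg Subtype.val h
        exact hφ (Subtype.ext this)
      obtain ⟨i, r, hir⟩ := emb (fun _ : Fin (np (d - e)) => M e)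
        (fun t : MS d => M (d - t.1.sum)) ψ hψ (fun a => cst M (by
          show e = d - (φ a).1.sum
          rw [(φ a).2.2]
          omega))
      have hord : addOrderOf y = p := by
        have := Fact.mk hp
        refine addOrderOf_eq_prime ?_ hy
        have := hpy
        rwa [natCast_zsmul] at this
      let z : ZMod p →+ M e := ZMod.lift p ⟨zmultiplesHom (M e) y, by
        show (p : ℤ) • y = 0
        exact hpy⟩
      have hz : Function.Injective z := by
        rw [ZMod.lift_injective]
        intro m hm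
        have h1 : m • y = 0 := hm
        rw [← addOrderOf_dvd_iff_zsmul_eq_zero, hord] at h1
        exact (ZMod.intCast_zmod_eq_zero_iff_dvd m p).2 h1
      let Z : (Fin (np (d - e)) → ZMod p) →+ (Fin (np (d - e)) → M e) :=
        AddMonoidHom.pi (fun a => z.comp (Pi.evalAddMonoidHom (fun _ => ZMod p) a))
      refine ⟨Ed.symm.toAddMonoidHom.comp (i.comp Z), ?_⟩
      have h1 : Function.Injective i := Function.LeftInverse.injective hir
      have h2 : Function.Injective Z := by
        intro f g hfg
        funext a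
        exact hz (congrFun hfg a)
      exact Ed.symm.injective.comp (h1.comp h2)

end Pool.Agent.VTP.H28
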