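import Pool.Agent.VTP.StmtsA

set_option autoImplicit false

namespace Pool.Agent.VTP.H28

open Finset Pool.Agent.ZOL

theorem cc_q {q : ℤ → PowerSeries ℤ} (hX : ∀ n, PowerSeries.X ∣ q n - 1) (n : ℤ) :
    PowerSeries.constantCoeff (q n) = 1 := by
  have h := PowerSeries.X_dvd_iff.1 (hX n)
  rw [map_sub, map_one] at h
  linarith

/-- row PCC -/
theorem pcc : PccStmt := by
  classical
  intro q hq hX V σ s i
  have h0 : (∅ : Finset ℕ) ∈ V.powerset.filter (fun S => NI i S) := by
    rw [mem_filter]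
    exact ⟨empty_mem_powerset V, fun c hc => absurd hc (notMem_empty c)⟩
  unfold PP
  rw [map_sum]
  have h1 := Finset.sum_eq_single_of_mem (s := V.powerset.filter (fun S => NI i S))
    (f := fun S => PowerSeries.constantCoeff
      ((∏ c ∈ S, xx q σ s c) * q (NN V σ s i S / 2))) ∅ h0 (by
      intro S hS hne
      show PowerSeries.constantCoeff ((∏ c ∈ S, xx q σ s c) * q (NN V σ s i S / 2)) = 0
      obtain ⟨a, ha⟩ := Finset.nonempty_iff_ne_empty.2 hne
      rw [map_mul, map_prod, Finset.prod_eq_zero ha, zero_mul]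
      unfold xx
      split_ifs
      · exact map_zero _
      · rw [map_sub, map_one, cc_q hX, sub_self])
  refine Eq.trans ?_ (h1.trans ?_)
  · rfl
  · show PowerSeries.constantCoeff ((∏ c ∈ (∅ : Finset ℕ), xx q σ s c) *
      q (NN V σ s i ∅ / 2)) = 1
    rw [Finset.prod_empty, one_mul, cc_q hX]

end Pool.Agent.VTP.H28
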