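import Pool.Agent.VTP.StmtsA

set_option autoImplicit false

namespace Pool.Agent.VTP.H28

open Finset Pool.Agent.ZOL

/-- the weight of the crossing `d` in the term of `S`; `b` tells whether `d` is changed -/
noncomputable def yw (q : ℤ → PowerSeries ℤ) (σ s : ℕ → ℤ) (S : Finset ℕ) (d : ℕ) (b : Prop)
    [Decidable b] : PowerSeries ℤ :=
  (if d ∈ S then (if (if b then - s d else s d) = σ d then 0 else 1 - q (σ d)) else 1) *
    (if b then q (s d) else 1)

theorem q_sum {q : ℤ → PowerSeries ℤ} (hq : IsExp q) (V : Finset ℕ) (f : ℕ → ℤ) :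
    q (∑ d ∈ V, f d) = ∏ d ∈ V, q (f d) := by
  classical
  induction V using Finset.induction_on with
  | empty => simpa using hq.1
  | insert a V ha ih => rw [sum_insert ha, prod_insert ha, hq.2, ih]

theorem nn_flip (V B : Finset ℕ) (σ s : ℕ → ℤ) (i : ℕ → ℕ → Prop) (S : Finset ℕ) :
    NN V σ (fun d => if d ∈ B then - s d else s d) i S =
      NN V σ s i S + (∑ d ∈ V, if d ∈ B then s d else 0) * 2 := by
  unfold NN
  have h : ∑ d ∈ V, (if d ∈ B then - s d else s d) =
      ∑ d ∈ V, s d - (∑ d ∈ V, if d ∈ B then s d else 0) * 2 := by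
    rw [sum_mul, ← sum_sub_distrib]
    refine sum_congr rfl fun d _ => ?_
    split_ifs <;> ring
  rw [h]
  ring

theorem term_eq {q : ℤ → PowerSeries ℤ} (hq : IsExp q) (V B S : Finset ℕ) (hS : S ⊆ V)
    (σ s : ℕ → ℤ) (i : ℕ → ℕ → Prop) :
    (∏ c ∈ S, xx q σ (fun d => if d ∈ B then - s d else s d) c) *
        q (NN V σ (fun d => if d ∈ B then - s d else s d) i S / 2) =
      q (NN V σ s i S / 2) * ∏ d ∈ V, yw q σ s S d (d ∈ B) := by
  classical
  rw [nn_flip, Int.add_mul_ediv_right _ _ (by norm_num), hq.2, q_sum hq]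
  have h1 : ∏ c ∈ S, xx q σ (fun d => if d ∈ B then - s d else s d) c =
      ∏ d ∈ V, (if d ∈ S then
        (if (if d ∈ B then - s d else s d) = σ d then 0 else 1 - q (σ d)) else 1) := by
    rw [← prod_filter]
    have : V.filter (fun d => d ∈ S) = S := by
      ext d
      simp only [mem_filter]
      exact ⟨fun h => h.2, fun h => ⟨hS h, h⟩⟩
    rw [this]
    rfl
  have h2 : ∏ d ∈ V, q (if d ∈ B then s d else 0) = ∏ d ∈ V, (if d ∈ B then q (s d) else 1) := by
    refine prod_congr rfl fun d _ => ?_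
    split_ifs
    · rfl
    · exact hq.1
  rw [h1, h2, mul_left_comm, ← prod_mul_distrib]
  rfl

theorem dvd_xx {q : ℤ → PowerSeries ℤ} (hX : ∀ n, PowerSeries.X ∣ q n - 1) (n : ℤ) :
    PowerSeries.X ∣ 1 - q n := by
  have h := (hX n).neg_right
  rwa [neg_sub] at h

theorem dvd_diff {q : ℤ → PowerSeries ℤ} (hX : ∀ n, PowerSeries.X ∣ q n - 1)
    (σ s : ℕ → ℤ) (S : Finset ℕ) (d : ℕ) :
    PowerSeries.X ∣ yw q σ s S d False - yw q σ s S d True := by
  unfold yw
  by_cases hd : d ∈ S
  · simp only [hd, if_true, if_false, mul_one]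
    refine dvd_sub ?_ (Dvd.dvd.mul_right ?_ _)
    · split_ifs
      · exact dvd_zero _
      · exact dvd_xx hX _
    · split_ifs
      · exact dvd_zero _
      · exact dvd_xx hX _
  · simp only [hd, if_true, if_false, mul_one, one_mul]
    exact dvd_xx hX _

/-- row PDG -/
theorem pdg : PdgStmt := by
  classical
  intro q hq hX V σ s i k A hA
  have hdvd : (PowerSeries.X : PowerSeries ℤ) ^ A.card ∣
      ∑ B ∈ A.powerset, (-1 : PowerSeries ℤ) ^ B.card *
        PP q V σ (fun d => if d ∈ B then - s d else s d) i := by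
    have h0 : ∑ B ∈ A.powerset, (-1 : PowerSeries ℤ) ^ B.card *
        PP q V σ (fun d => if d ∈ B then - s d else s d) i =
        ∑ S ∈ V.powerset.filter (fun S => NI i S), ∑ B ∈ A.powerset,
          (-1 : PowerSeries ℤ) ^ B.card *
            (q (NN V σ s i S / 2) * ∏ d ∈ V, yw q σ s S d (d ∈ B)) := by
      rw [sum_comm]
      refine sum_congr rfl fun B _ => ?_
      rw [← mul_sum]
      congr 1
      unfold PP
      refine sum_congr rfl fun S hS => ?_
      exact term_eq hq V B S (mem_powerset.1 (mem_filter.1 hS).1) σ s i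
    rw [h0]
    refine dvd_sum fun S _ => ?_
    have h1 : ∀ B ∈ A.powerset, (-1 : PowerSeries ℤ) ^ B.card *
        (q (NN V σ s i S / 2) * ∏ d ∈ V, yw q σ s S d (d ∈ B)) =
        (q (NN V σ s i S / 2) * ∏ d ∈ V \ A, yw q σ s S d False) *
          ((∏ d ∈ B, (-(if d ∈ V then yw q σ s S d True else 1))) *
            ∏ d ∈ A \ B, (if d ∈ V then yw q σ s S d False else 1)) := by
      intro B hB
      have hBA := mem_powerset.1 hB
      rw [prod_neg]
      have e1 : ∏ d ∈ V, yw q σ s S d (d ∈ B) =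
          (∏ d ∈ V \ A, yw q σ s S d False) *
            ∏ d ∈ A, (if d ∈ V then yw q σ s S d (d ∈ B) else 1) := by
        rw [← prod_sdiff (s₁ := V ∩ A) inter_subset_left]
        congr 1
        · rw [sdiff_inter_self_left]
          refine prod_congr rfl fun d hd => ?_
          have : d ∉ B := fun h => (mem_sdiff.1 hd).2 (hBA h)
          simp only [yw, this, if_false]
        · rw [inter_comm, ← filter_mem_eq_inter, prod_filter]
      have e2 : ∏ d ∈ A, (if d ∈ V then yw q σ s S d (d ∈ B) else 1) =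
          (∏ d ∈ B, (if d ∈ V then yw q σ s S d True else 1)) *
            ∏ d ∈ A \ B, (if d ∈ V then yw q σ s S d False else 1) := by
        rw [← prod_sdiff hBA, mul_comm]
        congr 1
        · refine prod_congr rfl fun d hd => ?_
          simp only [yw, hd, if_true]
        · refine prod_congr rfl fun d hd => ?_
          simp only [yw, (mem_sdiff.1 hd).2, if_false]
      rw [e1, e2]
      ring
    rw [sum_congr rfl h1, ← mul_sum, ← prod_add]
    refine Dvd.dvd.mul_left ?_ _
    rw [← prod_const]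
    refine prod_dvd_prod_of_dvd _ _ fun d _ => ?_
    rw [neg_add_eq_sub]
    split_ifs
    · exact dvd_diff hX σ s S d
    · rw [sub_self]
      exact dvd_zero _
  have h2 := PowerSeries.X_pow_dvd_iff.1 hdvd k hA
  rw [map_sum] at h2
  refine Eq.trans (sum_congr rfl fun B _ => ?_) h2
  have : ((-1 : PowerSeries ℤ) ^ B.card) = PowerSeries.C ((-1 : ℤ) ^ B.card) := by
    rw [map_pow, map_neg, map_one]
  rw [this, PowerSeries.coeff_C_mul]

end Pool.Agent.VTP.H28
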